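import Pool.Agent.X91.VH.Main

/-! # Homogeneous plus volumetric: quasiconvexity -/

set_option autoImplicit false

namespace Pool.Agent.X91.VH

open MeasureTheory Set Filter Topology
open Pool.Agent.X91.VI (sub_int)
open Pool.Agent.Helper188.Morrey (RankOneConvex)
open Pool.Agent.W360.MQ (cab)
open Pool.Agent.TH937.TF (bac cab_bac cont_bac)
open Pool.Agent.TH937.ZC (QL QL_det)
open Pool.Agent.W523.MQ.OM (T T_cont)
open Pool.Agent.Y273.VI (Tm pt_int pt_ql)

/-- the sign -/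
noncomputable def sg (q : ℝ) : ℝ := if 1 < q then 1 else -1

/-- the extremal function -/
noncomputable def ex (q x : ℝ) : ℝ := sg q * x ^ q

theorem ex_ext {p : ℝ} (hp : 0 < p) (hp2 : p ≠ 2) : Ext p (ex (p / 2)) where
  cont := by
    unfold ex
    exact (Real.continuous_rpow_const (by positivity)).const_smul (sg (p / 2))
  zero := by
    unfold ex
    rw [Real.zero_rpow (by positivity), mul_zero]
  hom := by
    intro c x hc hx
    unfold ex
    rw [Real.mul_rpow (sq_nonneg c) hx]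
    have e : (c ^ 2) ^ (p / 2) = c ^ p := by
      rw [← Real.rpow_natCast, ← Real.rpow_mul hc.le]
      congr 1
      push_cast
      ring
    rw [e]
    ring
  strict := by
    unfold ex sg
    split_ifs with h
    · have h1 := (strictConvexOn_rpow h).2 (x := 1) (y := 3) (by simp) (by simp) (by norm_num)
        (by norm_num : (0 : ℝ) < 1 / 2) (by norm_num : (0 : ℝ) < 1 / 2) (by norm_num)
      simp only [smul_eq_mul] at h1
      have e : (1 / 2 * 1 + 1 / 2 * 3 : ℝ) = 2 := by norm_num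
      rw [e] at h1
      linarith
    · have h' : p / 2 < 1 := lt_of_le_of_ne (not_lt.1 h) (by
        intro hne
        apply hp2
        linarith)
      have h1 := (Real.strictConcaveOn_rpow (by positivity : 0 < p / 2) h').2 (x := 1) (y := 3)
        (by simp) (by simp) (by norm_num) (by norm_num : (0 : ℝ) < 1 / 2)
        (by norm_num : (0 : ℝ) < 1 / 2) (by norm_num)
      simp only [smul_eq_mul] at h1
      have e : (1 / 2 * 1 + 1 / 2 * 3 : ℝ) = 2 := by norm_num
      rw [e] at h1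
      linarith

theorem bac_cab (A : M2) : bac (cab A) = A := by
  unfold bac cab
  ext i j
  fin_cases i <;> fin_cases j <;> simp <;> ring

/-- quasiconvexity -/
def Qc (W : M2 → ℝ) : Prop :=
  ∀ F₀ : M2, ∀ Ω : Set (Fin 2 → ℝ), IsOpen Ω → Bornology.IsBounded Ω →
    ∀ ϑ : (Fin 2 → ℝ) → (Fin 2 → ℝ), (∃ K, LipschitzWith K ϑ) →
      (∀ x, x ∉ Ω → ϑ x = 0) →
      W F₀ * (volume Ω).toReal ≤
        ∫ x in Ω, W (F₀ + LinearMap.toMatrix'
          ((fderiv ℝ ϑ x : (Fin 2 → ℝ) →L[ℝ] (Fin 2 → ℝ)) :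
            (Fin 2 → ℝ) →ₗ[ℝ] (Fin 2 → ℝ)))

/-- adding a convex function of the determinant -/
theorem Qc_add_det {Vt : M2 → ℝ} {ft : ℝ → ℝ} (hVr : RankOneConvex Vt)
    (hfc : ConvexOn ℝ univ ft) (hQ : Qc Vt) : Qc (fun A => Vt A + ft A.det) := by
  intro F₀ Ω hΩ hb ϑ hϑ hz
  have h : Tm Ω ϑ := ⟨hΩ, hb, hϑ, hz⟩
  have hVc : Continuous Vt := hVr.continuous
  have hfc' : Continuous ft := continuousOn_univ.1 (hfc.continuousOn isOpen_univ)
  set W : M2 → ℝ := fun A => Vt A + ft A.det with hW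
  have hWc : Continuous W := hVc.add (hfc'.comp (Continuous.matrix_det continuous_id))
  have hK := hQ F₀ Ω h.op h.bd ϑ h.lip h.zero
  obtain ⟨β, hβ⟩ := sub_int hfc (x := F₀.det) (by simp)
  -- the functions on the complex side
  set w1 : ℂ × ℂ → ℝ := fun F => Vt (bac F) with hw1
  set w2 : ℂ × ℂ → ℝ := fun F => W (bac F) with hw2
  have hw1c : Continuous w1 := hVc.comp cont_bac
  have hw2c : Continuous w2 := hWc.comp cont_bac
  set X : (Fin 2 → ℝ) → M2 := fun x => F₀ + LinearMap.toMatrix'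
        ((fderiv ℝ ϑ x : (Fin 2 → ℝ) →L[ℝ] (Fin 2 → ℝ)) :
          (Fin 2 → ℝ) →ₗ[ℝ] (Fin 2 → ℝ)) with hX
  have e1 : ∀ x, w1 (T F₀ (fderiv ℝ ϑ x)) = Vt (X x) := fun x => by
    simp only [hw1, T]; rw [bac_cab]
  have e2 : ∀ x, w2 (T F₀ (fderiv ℝ ϑ x)) = W (X x) := fun x => by
    simp only [hw2, T]; rw [bac_cab]
  have i1 : IntegrableOn (fun x => Vt (X x)) Ω := by
    have := pt_int hw1c F₀ h
    simpa only [e1] using this
  have i2 : IntegrableOn (fun x => W (X x)) Ω := by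
    have := pt_int hw2c F₀ h
    simpa only [e2] using this
  have e3 : ∀ A : M2, ‖(cab A).1‖ ^ 2 - ‖(cab A).2‖ ^ 2 = A.det := fun A =>
    (Pool.Agent.W74.MQ.OPN.main A).2.symm
  have hdc : Continuous (fun F : ℂ × ℂ => β * (‖F.1‖ ^ 2 - ‖F.2‖ ^ 2)) := by fun_prop
  have i3 : IntegrableOn (fun x => β * (X x).det) Ω := by
    have := pt_int hdc F₀ h
    simpa only [T, e3] using this
  have hd : β * F₀.det * (volume Ω).toReal ≤ ∫ x in Ω, β * (X x).det := by
    have := pt_ql hdc F₀ (QL_det β _) h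
    simpa only [T, e3] using this
  have hcst : ∀ k : ℝ, IntegrableOn (fun _ : Fin 2 → ℝ => k) Ω := fun k =>
    integrableOn_const h.fin.ne
  have hle : ∫ x in Ω, (Vt (X x) + (β * (X x).det + (ft F₀.det - β * F₀.det)))
      ≤ ∫ x in Ω, W (X x) := by
    refine integral_mono_ae (i1.add (i3.add (hcst _))) i2 (Eventually.of_forall fun x => ?_)
    have := hβ (X x).det (mem_univ _)
    change Vt (X x) + (β * (X x).det + (ft F₀.det - β * F₀.det)) ≤ Vt (X x) + ft (X x).det
    linarith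
  have i4 : IntegrableOn (fun x => β * (X x).det + (ft F₀.det - β * F₀.det)) Ω :=
    i3.add (hcst _)
  rw [integral_add i1 i4, integral_add i3 (hcst _), setIntegral_const] at hle
  simp only [smul_eq_mul, Measure.real] at hle
  change (Vt F₀ + ft F₀.det) * (volume Ω).toReal ≤ ∫ x in Ω, W (X x)
  have hK' : Vt F₀ * (volume Ω).toReal ≤ ∫ x in Ω, Vt (X x) := hK
  nlinarith

/-- the correction, written out -/
noncomputable def pm (p a b δ : ℝ) : ℝ := a * (max δ 0) ^ (p / 2) + b * (max (-δ) 0) ^ (p / 2)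

theorem pm_eq (p ap am : ℝ) :
    Ed ap am (ex (p / 2)) = pm p (ap * sg (p / 2)) (am * sg (p / 2)) := by
  funext δ
  unfold Ed ex pm
  ring

theorem det_zero_of_rank {H : M2} (hr : H.rank = 1) : H.det = 0 := by
  by_contra hne
  have h2 := Matrix.rank_of_isUnit H ((Matrix.isUnit_iff_isUnit_det H).2 (Ne.isUnit hne))
  rw [hr, Fintype.card_fin] at h2
  omega

/-- convex functions of the determinant are rank-one convex -/
theorem Rc_add_det {Vt : M2 → ℝ} {ft : ℝ → ℝ} (hVr : RankOneConvex Vt)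
    (hfc : ConvexOn ℝ univ ft) : RankOneConvex (fun A => Vt A + ft A.det) := by
  intro F H hr t h0 h1
  have hH := det_zero_of_rank hr
  have a1 := hVr F H hr t h0 h1
  have e3 : (1 - t) • F + t • (F + H) = F + t • H := by module
  have a2 := hfc.2 (mem_univ F.det) (mem_univ (F + H).det) (sub_nonneg.2 h1) h0 (by ring)
  simp only [smul_eq_mul] at a2
  have e4 : (1 - t) * F.det + t * (F + H).det = (F + t • H).det := by
    rw [det_line F H hH t]; ring
  rw [e4] at a2
  rw [e3] at a1 ⊢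
  simp only
  linarith

theorem pm_hom {p : ℝ} (a b : ℝ) {c : ℝ} (hc : 0 < c) (δ : ℝ) :
    pm p a b (c ^ 2 * δ) = c ^ p * pm p a b δ := by
  have e : (c ^ 2) ^ (p / 2) = c ^ p := by
    rw [← Real.rpow_natCast, ← Real.rpow_mul hc.le]
    congr 1
    push_cast
    ring
  have h2 : 0 ≤ c ^ 2 := sq_nonneg c
  have m1 : max (c ^ 2 * δ) 0 = c ^ 2 * max δ 0 := by
    rw [mul_max_of_nonneg _ _ h2, mul_zero]
  have m2 : max (-(c ^ 2 * δ)) 0 = c ^ 2 * max (-δ) 0 := by
    rw [mul_max_of_nonneg _ _ h2, mul_zero, mul_neg]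
  unfold pm
  rw [m1, m2, Real.mul_rpow h2 (le_max_right _ _), Real.mul_rpow h2 (le_max_right _ _), e]
  ring

/-- the decomposition -/
theorem decomp {p : ℝ} (hp : 0 < p) (hp2 : p ≠ 2) {V : M2 → ℝ} {f : ℝ → ℝ}
    (hhom : ∀ c : ℝ, 0 < c → ∀ A, V (c • A) = c ^ p * V A)
    (hroc : RankOneConvex (fun A => V A + f A.det)) :
    ∃ a b : ℝ, RankOneConvex (fun A => V A + pm p a b A.det) ∧
      ConvexOn ℝ univ (fun δ => f δ - pm p a b δ) := by
  have D : Dat p V f := ⟨hp, hhom, hroc⟩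
  obtain ⟨ap, am, h1, h2⟩ := D.decomp (ex_ext hp hp2) hp2
  rw [pm_eq] at h1 h2
  exact ⟨_, _, h1, h2⟩

theorem main {p : ℝ} (hp : 0 < p) (hp2 : p ≠ 2) {V : M2 → ℝ} {f : ℝ → ℝ}
    (hhom : ∀ c : ℝ, 0 < c → ∀ A, V (c • A) = c ^ p * V A)
    (hroc : RankOneConvex (fun A => V A + f A.det))
    (hQ : ∀ a b : ℝ, RankOneConvex (fun A => V A + pm p a b A.det) →
      Qc (fun A => V A + pm p a b A.det)) : Qc (fun A => V A + f A.det) := by
  obtain ⟨a, b, h1, h2⟩ := decomp hp hp2 hhom hroc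
  have h3 := Qc_add_det h1 h2 (hQ a b h1)
  have e : (fun A : M2 => V A + f A.det)
      = fun A => (V A + pm p a b A.det) + (f A.det - pm p a b A.det) := by
    funext A; ring
  rw [e]
  exact h3

theorem iso {p : ℝ} (hp : 0 < p) (hp2 : p ≠ 2) {V : M2 → ℝ} {f : ℝ → ℝ}
    (hinv : ∀ R ∈ Matrix.specialOrthogonalGroup (Fin 2) ℝ,
      ∀ Q ∈ Matrix.specialOrthogonalGroup (Fin 2) ℝ, ∀ A, V (R * A * Q) = V A)
    (hhom : ∀ c : ℝ, 0 < c → ∀ A, V (c • A) = c ^ p * V A)
    (hroc : RankOneConvex (fun A => V A + f A.det)) : Qc (fun A => V A + f A.det) := by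
  refine main hp hp2 hhom hroc fun a b hr => ?_
  refine Pool.Agent.W707.HM.hm_main p _ ?_ ?_ hr
  · intro R hR Q hQ A
    beta_reduce
    rw [hinv R hR Q hQ A, Matrix.det_mul, Matrix.det_mul,
      (Matrix.mem_specialOrthogonalGroup_iff.1 hR).2,
      (Matrix.mem_specialOrthogonalGroup_iff.1 hQ).2, one_mul, mul_one]
  · intro c hc A
    beta_reduce
    rw [hhom c hc, det_smul2, pm_hom a b hc]
    ring

end Pool.Agent.X91.VH
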