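import Pool.Agent.X91.VH.Side

/-! # Gluing -/

set_option autoImplicit false

namespace Pool.Agent.X91.VH

open Set Filter Topology
open Pool.Agent.X91.VI (touch conv_of_loc sub_int closed_conv mid)
open Pool.Agent.Helper188.Morrey (RankOneConvex)

theorem star {v : ℝ → ℝ} (h : ConvexOn ℝ (Ici 0) v) {θ t : ℝ} (h0 : 0 ≤ θ) (h1 : θ ≤ 1)
    (ht : 0 ≤ t) : v (θ * t) ≤ θ * v t + (1 - θ) * v 0 := by
  have := h.2 (x := t) (y := 0) ht (by simp) h0 (sub_nonneg.2 h1) (by ring)
  simpa using this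

theorem closed_of_open {v : ℝ → ℝ} (hc : Continuous v) (h : ConvexOn ℝ (Ioi 0) v) :
    ConvexOn ℝ (Ici 0) v := by
  refine conv_of_loc (convex_Ici 0) hc.continuousOn fun x hx => ?_
  rw [interior_Ici] at hx
  have hx0 : (0 : ℝ) < x := hx
  obtain ⟨k, hk⟩ := sub_int h (x := x) (by rw [interior_Ioi]; exact hx)
  refine ⟨k, x, hx0, fun z _ hz => hk z ?_⟩
  rw [abs_lt] at hz
  exact mem_Ioi.2 (by linarith [hz.1])

theorem glue {v : ℝ → ℝ} (hc : Continuous v) (h1 : ConvexOn ℝ (Ici 0) v)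
    (h2 : ConvexOn ℝ (Ici 0) (fun t => v (-t)))
    (hk : ∀ t, 0 < t → 0 ≤ v t + v (-t) - 2 * v 0) : ConvexOn ℝ univ v := by
  refine conv_of_loc convex_univ hc.continuousOn fun x _ => ?_
  rcases lt_trichotomy x 0 with hx | hx | hx
  · obtain ⟨k, hk⟩ := sub_int h2 (x := -x) (by rw [interior_Ici]; exact mem_Ioi.2 (by linarith))
    refine ⟨-k, -x, by linarith, fun z _ hz => ?_⟩
    rw [abs_lt] at hz
    have := hk (-z) (mem_Ici.2 (by linarith [hz.2]))
    simp only [neg_neg] at this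
    linarith
  · subst hx
    have key : ∀ r s : ℝ, 0 < r → 0 < s → (v 0 - v (-r)) / r ≤ (v s - v 0) / s := by
      intro r s hr hs
      set u : ℝ := min r s with hu
      have hu0 : 0 < u := lt_min hr hs
      have hur : u ≤ r := min_le_left _ _
      have hus : u ≤ s := min_le_right _ _
      have a1 := star h2 (θ := u / r) (t := r) (by positivity) ((div_le_one hr).2 hur) hr.le
      have a2 := star h1 (θ := u / s) (t := s) (by positivity) ((div_le_one hs).2 hus) hs.le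
      have e1 : u / r * r = u := by field_simp
      have e2 : u / s * s = u := by field_simp
      simp only [neg_zero] at a1
      rw [e1] at a1
      rw [e2] at a2
      have a3 := hk u hu0
      have b1 : (v 0 - v (-r)) * (u / r) ≤ v 0 - v (-u) := by linarith
      have b2 : v u - v 0 ≤ (v s - v 0) * (u / s) := by linarith
      have b3 : (v 0 - v (-r)) * (u / r) ≤ (v s - v 0) * (u / s) := by linarith
      have c1 : (v 0 - v (-r)) * (u / r) = (v 0 - v (-r)) / r * u := by ring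
      have c2 : (v s - v 0) * (u / s) = (v s - v 0) / s * u := by ring
      rw [c1, c2] at b3
      exact le_of_mul_le_mul_right b3 hu0
    set L : ℝ → ℝ := fun r => (v 0 - v (-r)) / r with hL
    have hbd : BddAbove (L '' Ioi 0) := by
      refine ⟨(v 1 - v 0) / 1, ?_⟩
      rintro _ ⟨r, hr, rfl⟩
      exact key r 1 hr one_pos
    refine ⟨sSup (L '' Ioi 0), 1, one_pos, fun z _ _ => ?_⟩
    rw [sub_zero]
    rcases lt_trichotomy z 0 with hz | hz | hz
    · have h3 : L (-z) ≤ sSup (L '' Ioi 0) := le_csSup hbd ⟨-z, mem_Ioi.2 (by linarith), rfl⟩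
      simp only [hL, neg_neg] at h3
      rw [div_le_iff₀ (by linarith)] at h3
      linarith
    · rw [hz]; simp
    · have h3 : sSup (L '' Ioi 0) ≤ (v z - v 0) / z := by
        refine csSup_le ⟨L 1, 1, mem_Ioi.2 one_pos, rfl⟩ ?_
        rintro _ ⟨r, hr, rfl⟩
        exact key r z hr hz
      rw [le_div_iff₀ hz] at h3
      linarith
  · obtain ⟨k, hk⟩ := sub_int h1 (x := x) (by rw [interior_Ici]; exact hx)
    refine ⟨k, x, hx, fun z _ hz => hk z ?_⟩
    rw [abs_lt] at hz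
    exact mem_Ici.2 (by linarith [hz.1])

/-- both kinks are nonnegative -/
theorem kinks {p c : ℝ} (hp : p ≠ 2) (hc : 0 < c) {Sv Sf : ℝ → ℝ}
    (h : ∀ l t : ℝ, 0 < l → 0 < t → 0 ≤ l ^ p * Sv t + Sf (l ^ 2 * (c * t)))
    (h1 : ∀ θ t : ℝ, 0 < θ → θ ≤ 1 → 0 < t → Sv (θ * t) ≤ θ * Sv t)
    (h2 : ∀ θ t : ℝ, 0 < θ → θ ≤ 1 → 0 < t → Sf (θ * t) ≤ θ * Sf t) {t : ℝ} (ht : 0 < t) :
    0 ≤ Sv t ∧ 0 ≤ Sf (c * t) := by
  have hct : 0 < c * t := by positivity
  have key : ∀ l : ℝ, 0 < l → 0 ≤ l ^ (p - 2) * Sv t + Sf (c * t) := by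
    intro l hl
    have e : l ^ (p - 2) = l ^ p / l ^ 2 := by
      rw [Real.rpow_sub hl, Real.rpow_two]
    have hl2 : 0 < l ^ 2 := by positivity
    rcases le_total l 1 with hl1 | hl1
    · have a1 := h l t hl ht
      have a2 := h2 (l ^ 2) (c * t) hl2 (by nlinarith) hct
      have a3 : 0 ≤ (l ^ p * Sv t + l ^ 2 * Sf (c * t)) / l ^ 2 :=
        div_nonneg (by linarith) hl2.le
      rw [e]
      refine a3.trans (le_of_eq ?_)
      field_simp
    · have hθ : 0 < (l ^ 2)⁻¹ := by positivity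
      have hθ1 : (l ^ 2)⁻¹ ≤ 1 := inv_le_one_of_one_le₀ (by nlinarith)
      have a1 := h l ((l ^ 2)⁻¹ * t) hl (by positivity)
      have e1 : l ^ 2 * (c * ((l ^ 2)⁻¹ * t)) = c * t := by field_simp
      rw [e1] at a1
      have a2 := h1 (l ^ 2)⁻¹ t hθ hθ1 ht
      have a3 := mul_le_mul_of_nonneg_left a2 (Real.rpow_nonneg hl.le p)
      have e2 : l ^ p / l ^ 2 * Sv t = l ^ p * ((l ^ 2)⁻¹ * Sv t) := by
        rw [div_eq_mul_inv]
        ring
      rw [e, e2]
      linarith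
  have key2 : ∀ X : ℝ, 0 < X → 0 ≤ X * Sv t + Sf (c * t) := by
    intro X hX
    have hp' : p - 2 ≠ 0 := sub_ne_zero.2 hp
    have := key (X ^ (1 / (p - 2))) (Real.rpow_pos_of_pos hX _)
    rwa [← Real.rpow_mul hX.le, one_div, inv_mul_cancel₀ hp', Real.rpow_one] at this
  constructor
  · by_contra hneg
    rw [not_le] at hneg
    have h3 := key2 ((|Sf (c * t)| + 1) / (-Sv t)) (div_pos (by positivity) (by linarith))
    have e : (|Sf (c * t)| + 1) / (-Sv t) * Sv t = -(|Sf (c * t)| + 1) := by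
      have : Sv t ≠ 0 := hneg.ne
      field_simp
    rw [e] at h3
    linarith [le_abs_self (Sf (c * t))]
  · by_contra hneg
    rw [not_le] at hneg
    have h3 := key2 ((-Sf (c * t)) / (2 * (|Sv t| + 1))) (div_pos (by linarith) (by positivity))
    have h4 : (-Sf (c * t)) / (2 * (|Sv t| + 1)) * Sv t ≤ (-Sf (c * t)) / 2 := by
      have h5 : Sv t ≤ |Sv t| + 1 := by linarith [le_abs_self (Sv t)]
      have h6 : (-Sf (c * t)) / (2 * (|Sv t| + 1)) * Sv t
          ≤ (-Sf (c * t)) / (2 * (|Sv t| + 1)) * (|Sv t| + 1) :=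
        mul_le_mul_of_nonneg_left h5 (div_nonneg (by linarith) (by positivity))
      refine h6.trans (le_of_eq ?_)
      have : |Sv t| + 1 ≠ 0 := by positivity
      field_simp
    linarith

end Pool.Agent.X91.VH
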