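import Pool.Agent.X91.VH.Glue
import Pool.Agent.X91.VI.Qc
import Pool.Agent.W707.HM.All

/-! # Homogeneous plus volumetric: the theorem -/

set_option autoImplicit false

namespace Pool.Agent.X91.VH

open MeasureTheory Set Filter Topology
open Pool.Agent.X91.VI (touch conv_of_loc sub_int closed_conv mid)
open Pool.Agent.Helper188.Morrey (RankOneConvex)

variable {p : ℝ} {V : M2 → ℝ} {f e : ℝ → ℝ}

/-- convexity on sets of the line -/
theorem seg_of_Q {ε a : ℝ} (h : Q ε V e a) (A H : M2) (hH : H.det = 0) {S : Set ℝ}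
    (hS : Convex ℝ S) (hpos : ∀ t ∈ S, 0 < ε * (A + t • H).det) :
    ConvexOn ℝ S (fun t => V (A + t • H) + a * e (ε * (A + t • H).det)) := by
  refine ⟨hS, fun x hx y hy u w hu hw huw => ?_⟩
  have e0 : ∀ t : ℝ, A + x • H + t • (y - x) • H = A + (x + t * (y - x)) • H := by
    intro t
    module
  have h1 := h (A + x • H) ((y - x) • H) (by rw [det_smul2, hH, mul_zero]) (by
    intro t ht
    rw [e0]
    have hm : x + t * (y - x) = (1 - t) • x + t • y := by simp only [smul_eq_mul]; ring
    rw [hm]
    exact hpos _ (hS hx hy (by linarith [ht.2]) ht.1 (by ring)))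
  have h2 := h1.2 (x := 0) (y := 1) (by simp) (by simp) hu hw huw
  simp only [e0, smul_eq_mul, mul_zero, mul_one, zero_add, zero_mul, add_zero, one_mul,
    add_sub_cancel] at h2
  simp only [smul_eq_mul]
  have e1 : x + w * (y - x) = u * x + w * y := by
    have : u = 1 - w := by linarith
    subst this
    ring
  rw [e1] at h2
  exact h2

/-- the correction -/
noncomputable def Ed (ap am : ℝ) (e : ℝ → ℝ) (δ : ℝ) : ℝ := ap * e (max δ 0) + am * e (max (-δ) 0)

theorem Ed_cont (E : Ext p e) (ap am : ℝ) : Continuous (Ed ap am e) := by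
  have := E.cont
  unfold Ed
  fun_prop

theorem Ed_pos (E : Ext p e) (ap am : ℝ) {δ : ℝ} (h : 0 ≤ δ) : Ed ap am e δ = ap * e δ := by
  unfold Ed
  rw [max_eq_left h, max_eq_right (by linarith), E.zero]
  ring

theorem Ed_neg (E : Ext p e) (ap am : ℝ) {δ : ℝ} (h : δ ≤ 0) : Ed ap am e δ = am * e (-δ) := by
  unfold Ed
  rw [max_eq_right h, max_eq_left (by linarith), E.zero]
  ring

theorem Ed_hom (E : Ext p e) (ap am : ℝ) {c : ℝ} (hc : 0 < c) (δ : ℝ) :
    Ed ap am e (c ^ 2 * δ) = c ^ p * Ed ap am e δ := by
  rcases le_total 0 δ with h | h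
  · rw [Ed_pos E ap am h, Ed_pos E ap am (by positivity), E.hom c δ hc h]
    ring
  · rw [Ed_neg E ap am h, Ed_neg E ap am (mul_nonpos_of_nonneg_of_nonpos (by positivity) h),
      ← mul_neg, E.hom c (-δ) hc (by linarith)]
    ring

/-- the decomposition -/
theorem Dat.decomp (D : Dat p V f) (E : Ext p e) (hp2 : p ≠ 2) :
    ∃ ap am : ℝ, RankOneConvex (fun A => V A + Ed ap am e A.det) ∧
      ConvexOn ℝ univ (fun δ => f δ - Ed ap am e δ) := by
  obtain ⟨ap, hPp, hQp⟩ := D.exists_a E (ε := 1) (by norm_num)
  obtain ⟨am, hPm, hQm⟩ := D.exists_a E (ε := -1) (by norm_num)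
  refine ⟨ap, am, ?_⟩
  set Vt : M2 → ℝ := fun A => V A + Ed ap am e A.det with hVt
  set ft : ℝ → ℝ := fun δ => f δ - Ed ap am e δ with hft
  have hVc : Continuous Vt :=
    D.cont_V.add ((Ed_cont E ap am).comp (Continuous.matrix_det continuous_id))
  have hfc : Continuous ft := D.cont_f.sub (Ed_cont E ap am)
  have hsum : ∀ A, Vt A + ft A.det = V A + f A.det := fun A => by simp only [hVt, hft]; ring
  have hVh : ∀ c : ℝ, 0 < c → ∀ A, Vt (c • A) = c ^ p * Vt A := by
    intro c hc A
    simp only [hVt]
    rw [D.hom c hc, det_smul2, Ed_hom E ap am hc]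
    ring
  -- the volumetric part on both sides
  have f1 : ConvexOn ℝ (Ici 0) ft := by
    refine closed_of_open hfc (hPp.congr fun δ hδ => ?_)
    have hδ0 : (0 : ℝ) < δ := hδ
    simp only [hft]
    rw [Ed_pos E ap am hδ0.le, one_mul]
    ring
  have f2 : ConvexOn ℝ (Ici 0) (fun δ => ft (-δ)) := by
    refine closed_of_open (hfc.comp continuous_neg) (hPm.congr fun δ hδ => ?_)
    have hδ0 : (0 : ℝ) < δ := hδ
    simp only [hft]
    rw [Ed_neg E ap am (by linarith), neg_neg, neg_one_mul]
    ring
  -- lines through a singular matrix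
  have lines : ∀ (A H : M2) (c : ℝ), A.det = 0 → H.det = 0 → 0 < c →
      (∀ t : ℝ, (A + t • H).det = c * t) →
      ConvexOn ℝ univ (fun t : ℝ => Vt (A + t • H)) ∧
        ∀ t, 0 < t → 0 ≤ ft (c * t) + ft (-(c * t)) - 2 * ft 0 := by
    intro A H c hA hH hc hdet
    set v : ℝ → ℝ := fun t => Vt (A + t • H) with hv
    have hvc : Continuous v := hVc.comp (by fun_prop)
    have v1 : ConvexOn ℝ (Ici 0) v := by
      refine closed_of_open hvc ((seg_of_Q hQp A H hH (convex_Ioi 0) (by
        intro t ht
        rw [hdet, one_mul]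
        exact mul_pos hc ht)).congr fun t ht => ?_)
      have ht0 : (0 : ℝ) < t := ht
      simp only [hv, hVt, one_mul]
      rw [hdet, Ed_pos E ap am (by positivity)]
    have v2 : ConvexOn ℝ (Ici 0) (fun t => v (-t)) := by
      refine closed_of_open (hvc.comp continuous_neg) ?_
      have h1 := seg_of_Q hQm A (-H) (by rw [Matrix.det_neg, hH, mul_zero]) (S := Ioi 0)
        (convex_Ioi 0) (by
        intro t ht
        have ht0 : (0 : ℝ) < t := ht
        rw [smul_neg, ← neg_smul, hdet]
        have := mul_pos hc ht0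
        linarith)
      refine h1.congr fun t ht => ?_
      have ht0 : (0 : ℝ) < t := ht
      have := mul_pos hc ht0
      simp only [hv, hVt]
      rw [smul_neg, ← neg_smul, hdet, Ed_neg E ap am (by linarith)]
      congr 3
      ring
    set Sv : ℝ → ℝ := fun t => v t + v (-t) - 2 * v 0 with hSv
    set Sf : ℝ → ℝ := fun t => ft t + ft (-t) - 2 * ft 0 with hSf
    have hstar : ∀ (w : ℝ → ℝ), ConvexOn ℝ (Ici 0) w → ConvexOn ℝ (Ici 0) (fun t => w (-t)) →
        ∀ θ t : ℝ, 0 < θ → θ ≤ 1 → 0 < t →
        w (θ * t) + w (-(θ * t)) - 2 * w 0 ≤ θ * (w t + w (-t) - 2 * w 0) := by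
      intro w w1 w2 θ t h0 h1 ht
      have a1 := star w1 h0.le h1 ht.le
      have a2 := star w2 h0.le h1 ht.le
      simp only [neg_zero] at a2
      linarith
    have hk : ∀ t, 0 < t → 0 ≤ Sv t ∧ 0 ≤ Sf (c * t) := fun t ht => kinks (p := p) (c := c) hp2 hc (Sv := Sv) (Sf := Sf) (by
        intro l t hl ht
        have hline := D.rc.line (l • A) (l • H) (by rw [det_smul2, hH, mul_zero])
        have h1 := mid hline (x := t) (y := -t) (z := 0) (mem_univ _) (mem_univ _) (by ring)
        have hval : ∀ x : ℝ, V (l • A + x • l • H) + f (l • A + x • l • H).det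
            = l ^ p * v x + ft (l ^ 2 * (c * x)) := by
          intro x
          have e1 : l • A + x • l • H = l • (A + x • H) := by rw [smul_add, smul_comm]
          rw [e1, ← hsum, hVh l hl, det_smul2, hdet]
        rw [hval, hval, hval] at h1
        simp only [hSv, hSf]
        have e2 : l ^ 2 * (c * -t) = -(l ^ 2 * (c * t)) := by ring
        have e3 : l ^ 2 * (c * 0) = 0 := by ring
        rw [e2, e3] at h1
        linarith)
      (hstar v v1 v2) (hstar ft f1 f2) ht
    exact ⟨glue hvc v1 v2 fun t ht => (hk t ht).1, fun t ht => (hk t ht).2⟩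
  -- all lines
  have allc : ∀ (A H : M2) (c : ℝ), H.det = 0 → 0 < c →
      (∀ t : ℝ, (A + t • H).det = A.det + c * t) →
      ConvexOn ℝ univ (fun t : ℝ => Vt (A + t • H)) := by
    intro A H c hH hc hdet
    set t0 : ℝ := -A.det / c with ht0
    have ht0' : A.det + c * t0 = 0 := by rw [ht0]; field_simp; ring
    have e1 : ∀ t : ℝ, A + t0 • H + t • H = A + (t0 + t) • H := fun t => by module
    obtain ⟨h1, _⟩ := lines (A + t0 • H) H c (by rw [hdet, ht0']) hH hc (by
      intro t
      rw [e1, hdet]
      linarith)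
    simp only [e1] at h1
    refine ⟨convex_univ, fun x _ y _ u w hu hw huw => ?_⟩
    have h2 := h1.2 (mem_univ (x - t0)) (mem_univ (y - t0)) hu hw huw
    simp only [smul_eq_mul, add_sub_cancel] at h2 ⊢
    have e2 : t0 + (u * (x - t0) + w * (y - t0)) = u * x + w * y := by
      have : u = 1 - w := by linarith
      subst this
      ring
    rw [e2] at h2
    exact h2
  constructor
  · intro F H hr t h0 h1
    have hH : H.det = 0 := by
      by_contra hne
      have h2 := Matrix.rank_of_isUnit H ((Matrix.isUnit_iff_isUnit_det H).2 (Ne.isUnit hne))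
      rw [hr, Fintype.card_fin] at h2
      omega
    have hconv : ConvexOn ℝ univ (fun t : ℝ => Vt (F + t • H)) := by
      set c : ℝ := (F + H).det - F.det with hc
      have hdet : ∀ t : ℝ, (F + t • H).det = F.det + c * t := fun t => by
        rw [det_line F H hH t]; ring
      rcases lt_trichotomy c 0 with hc0 | hc0 | hc0
      · have h3 := allc F (-H) (-c) (by rw [Matrix.det_neg, hH, mul_zero]) (by linarith) (by
          intro t
          rw [smul_neg, ← neg_smul, hdet]
          ring)
        refine ⟨convex_univ, fun x _ y _ u w hu hw huw => ?_⟩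
        have h4 := h3.2 (mem_univ (-x)) (mem_univ (-y)) hu hw huw
        simp only [smul_eq_mul, smul_neg, neg_smul, neg_neg] at h4 ⊢
        have e2 : u * -x + w * -y = -(u * x + w * y) := by ring
        rw [e2, neg_smul, neg_neg] at h4
        exact h4
      · rcases lt_trichotomy F.det 0 with hF | hF | hF
        · refine (seg_of_Q hQm F H hH convex_univ (by
            intro t _
            rw [hdet, hc0, zero_mul, add_zero]
            linarith)).congr fun t _ => ?_
          simp only [hVt]
          rw [hdet, hc0, zero_mul, add_zero, Ed_neg E ap am hF.le]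
          congr 3
          ring
        · have h5 := D.rc.line F H hH
          refine ⟨convex_univ, fun x _ y _ u w hu hw huw => ?_⟩
          have h6 := h5.2 (mem_univ x) (mem_univ y) hu hw huw
          simp only [hdet, hc0, hF, zero_mul, add_zero, smul_eq_mul] at h6
          simp only [hVt, hdet, hc0, hF, zero_mul, add_zero, smul_eq_mul]
          rw [Ed_pos E ap am le_rfl, E.zero]
          have : u = 1 - w := by linarith
          subst this
          linarith
        · refine (seg_of_Q hQp F H hH convex_univ (by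
            intro t _
            rw [hdet, hc0, zero_mul, add_zero]
            linarith)).congr fun t _ => ?_
          simp only [hVt, one_mul]
          rw [hdet, hc0, zero_mul, add_zero, Ed_pos E ap am hF.le]
      · exact allc F H c hH hc0 hdet
    have h7 := hconv.2 (mem_univ 0) (mem_univ 1) (sub_nonneg.2 h1) h0 (by ring)
    simp only [smul_eq_mul, mul_zero, mul_one, zero_add, zero_smul, add_zero, one_smul] at h7
    have e3 : (1 - t) • F + t • (F + H) = F + t • H := by module
    rw [e3]
    exact h7
  · refine glue hfc f1 f2 fun t ht => ?_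
    obtain ⟨_, h3⟩ := lines !![1, 0; 0, 0] !![0, 0; 0, 1] 1 (by simp [Matrix.det_fin_two])
      (by simp [Matrix.det_fin_two]) one_pos (by
        intro t
        simp [Matrix.det_fin_two])
    have := h3 t ht
    rwa [one_mul] at this

end Pool.Agent.X91.VH
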