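import Pool.Agent.X91.VI.Conv
import Pool.Agent.Helper188.Morrey.Basic

/-! # Homogeneous plus volumetric: matrices with determinant of one sign -/

set_option autoImplicit false

namespace Pool.Agent.X91.VH

open Set Filter Topology
open Pool.Agent.X91.VI (touch conv_of_loc sub_int closed_conv mid)
open Pool.Agent.Helper188.Morrey (RankOneConvex)

/-- real `2 × 2` matrices -/
abbrev M2 := Matrix (Fin 2) (Fin 2) ℝ

/-- the determinant on rank-one lines -/
theorem det_line (A H : M2) (hH : H.det = 0) (t : ℝ) :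
    (A + t • H).det = A.det + t * ((A + H).det - A.det) := by
  simp only [Matrix.det_fin_two, Matrix.add_apply, Matrix.smul_apply, smul_eq_mul] at hH ⊢
  linear_combination (t ^ 2 - t) * hH

theorem det_smul2 (c : ℝ) (A : M2) : (c • A).det = c ^ 2 * A.det := by
  rw [Matrix.det_smul, Fintype.card_fin]

/-- the data -/
structure Dat (p : ℝ) (V : M2 → ℝ) (f : ℝ → ℝ) : Prop where
  hp : 0 < p
  hom : ∀ c : ℝ, 0 < c → ∀ A, V (c • A) = c ^ p * V A
  rc : RankOneConvex (fun A => V A + f A.det)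

/-- the extremal function of the determinant -/
structure Ext (p : ℝ) (e : ℝ → ℝ) : Prop where
  cont : Continuous e
  zero : e 0 = 0
  hom : ∀ c x : ℝ, 0 < c → 0 ≤ x → e (c ^ 2 * x) = c ^ p * e x
  strict : 2 * e 2 < e 1 + e 3

variable {p : ℝ} {V : M2 → ℝ} {f e : ℝ → ℝ}

theorem Dat.zero (D : Dat p V f) : V 0 = 0 := by
  have h := D.hom 2 (by norm_num) 0
  rw [smul_zero] at h
  have h2 : (1 : ℝ) < 2 ^ p := Real.one_lt_rpow (by norm_num) D.hp
  by_contra hne
  have : (2 : ℝ) ^ p = 1 := by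
    field_simp at h
    linarith
  linarith

theorem Dat.hom' (D : Dat p V f) {c : ℝ} (hc : 0 ≤ c) (A : M2) : V (c • A) = c ^ p * V A := by
  rcases eq_or_lt_of_le hc with h | h
  · rw [← h, zero_smul, D.zero, Real.zero_rpow D.hp.ne', zero_mul]
  · exact D.hom c h A

theorem Dat.contW (D : Dat p V f) : Continuous (fun A => V A + f A.det) := D.rc.continuous

theorem Dat.cont_f (D : Dat p V f) : Continuous f := by
  have key : ∀ J : M2, Continuous (fun x : ℝ => (V (√x • J) + f (√x • J).det) - (√x) ^ p * V J) := by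
    intro J
    have h1 : Continuous (fun x : ℝ => √x • J) := by fun_prop
    have h2 := D.contW.comp h1
    have h3 : Continuous (fun x : ℝ => (√x) ^ p) :=
      Continuous.rpow_const (by fun_prop) fun x => Or.inr D.hp.le
    exact h2.sub (h3.mul continuous_const)
  have e1 : f = fun x => if 0 ≤ x then
      ((V (√x • (1 : M2)) + f (√x • (1 : M2)).det) - (√x) ^ p * V 1)
      else ((V (√(-x) • (!![1, 0; 0, -1] : M2)) + f (√(-x) • (!![1, 0; 0, -1] : M2)).det)
        - (√(-x)) ^ p * V !![1, 0; 0, -1]) := by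
    funext x
    split_ifs with h
    · rw [D.hom' (Real.sqrt_nonneg x), det_smul2, Real.sq_sqrt h]
      simp
    · push Not at h
      rw [D.hom' (Real.sqrt_nonneg _), det_smul2, Real.sq_sqrt (by linarith)]
      simp
  rw [e1]
  refine Continuous.if_le (key 1) ((key _).comp continuous_neg) continuous_const continuous_id ?_
  intro x hx
  have hx0 : x = 0 := by simpa using hx.symm
  subst hx0
  simp [Real.zero_rpow D.hp.ne']

theorem Dat.cont_V (D : Dat p V f) : Continuous V := by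
  have h1 : Continuous (fun A : M2 => f A.det) :=
    D.cont_f.comp (Continuous.matrix_det continuous_id)
  refine (D.contW.sub h1).congr fun A => ?_
  simp

/-- convexity of the volumetric part on one side -/
def P (ε : ℝ) (f e : ℝ → ℝ) (a : ℝ) : Prop :=
  ConvexOn ℝ (Ioi 0) (fun δ => f (ε * δ) + a * (-e δ))

/-- rank-one convexity of the homogeneous part on one side -/
def Q (ε : ℝ) (V : M2 → ℝ) (e : ℝ → ℝ) (a : ℝ) : Prop :=
  ∀ A H : M2, H.det = 0 → (∀ t ∈ Icc (0 : ℝ) 1, 0 < ε * (A + t • H).det) →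
    ConvexOn ℝ (Icc 0 1) (fun t : ℝ => V (A + t • H) + a * e (ε * (A + t • H).det))

theorem Pclosed (ε : ℝ) (f e : ℝ → ℝ) : IsClosed {a | P ε f e a} := closed_conv _ _

theorem Qclosed (ε : ℝ) (V : M2 → ℝ) (e : ℝ → ℝ) : IsClosed {a | Q ε V e a} := by
  unfold Q
  simp only [setOf_forall]
  exact isClosed_iInter fun A => isClosed_iInter fun H => isClosed_iInter fun _ =>
    isClosed_iInter fun _ => closed_conv _ _

theorem Dat.cont_line (D : Dat p V f) (E : Ext p e) (ε a : ℝ) (A H : M2) :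
    Continuous (fun t : ℝ => V (A + t • H) + a * e (ε * (A + t • H).det)) := by
  have h0 : Continuous (fun t : ℝ => A + t • H) := by fun_prop
  have h1 : Continuous (fun t : ℝ => (A + t • H).det) := h0.matrix_det
  exact (D.cont_V.comp h0).add ((E.cont.comp (h1.const_smul ε)).const_smul a)

theorem Dat.dual (D : Dat p V f) (E : Ext p e) {ε : ℝ} (hε : ε * ε = 1) (a : ℝ) :
    P ε f e a ∨ Q ε V e a := by
  by_cases hP : P ε f e a
  · exact Or.inl hP
  refine Or.inr fun A H hH hpos => ?_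
  have hc : ContinuousOn (fun δ => f (ε * δ) + a * (-e δ)) (Ioi 0) := by
    have := D.cont_f
    have := E.cont
    fun_prop
  obtain ⟨δ, hδ, m, r, hr, ht⟩ := touch (convex_Ioi 0) hc hP
  rw [interior_Ioi] at hδ
  have hδ0 : (0 : ℝ) < δ := hδ
  refine conv_of_loc (convex_Icc 0 1) (D.cont_line E ε a A H).continuousOn fun t0 ht0 => ?_
  have ht0' := interior_subset ht0
  set dd : ℝ → ℝ := fun t => ε * (A + t • H).det with hdd
  have hD0 : 0 < dd t0 := hpos t0 ht0'
  set c : ℝ := ε * ((A + H).det - A.det) with hc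
  have hlin : ∀ t, dd t = dd t0 + c * (t - t0) := by
    intro t
    simp only [hdd, hc]
    rw [det_line A H hH t, det_line A H hH t0]
    ring
  set l : ℝ := √(δ / dd t0) with hl
  have hl0 : 0 < l := Real.sqrt_pos.2 (by positivity)
  have hl2 : l ^ 2 = δ / dd t0 := Real.sq_sqrt (by positivity)
  have hlD : l ^ 2 * dd t0 = δ := by rw [hl2]; field_simp
  have hlp : 0 < l ^ p := Real.rpow_pos_of_pos hl0 p
  have hline := D.rc.line (l • A) (l • H) (by rw [det_smul2, hH, mul_zero])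
  obtain ⟨k, hk⟩ := sub_int hline (x := t0) (by simp)
  have hval : ∀ t : ℝ, V (l • A + t • l • H) + f (l • A + t • l • H).det
      = l ^ p * V (A + t • H) + f (ε * (l ^ 2 * dd t)) := by
    intro t
    have e1 : l • A + t • l • H = l • (A + t • H) := by
      rw [smul_add, smul_comm]
    rw [e1, D.hom l hl0, det_smul2]
    congr 2
    simp only [hdd]
    linear_combination (-(l ^ 2 * (A + t • H).det)) * hε
  have hcp : 0 < l ^ 2 * |c| + 1 := by positivity
  refine ⟨(k - m * (l ^ 2 * c)) / l ^ p, r / (l ^ 2 * |c| + 1), by positivity,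
    fun z hz hzr => ?_⟩
  have hk' := hk z (mem_univ z)
  rw [hval, hval, hlD] at hk'
  have hDz : 0 < dd z := hpos z hz
  have e3 : l ^ 2 * dd z - δ = l ^ 2 * c * (z - t0) := by rw [hlin z, ← hlD]; ring
  have hnear : |l ^ 2 * dd z - δ| < r := by
    rw [e3, abs_mul, abs_mul, abs_of_pos (by positivity : (0 : ℝ) < l ^ 2)]
    rw [lt_div_iff₀ hcp] at hzr
    nlinarith [abs_nonneg (z - t0)]
  obtain ⟨_, ht'⟩ := ht _ hnear
  rw [E.hom l _ hl0 hDz.le, e3] at ht'
  have e4 : e δ = l ^ p * e (dd t0) := by rw [← hlD]; exact E.hom l _ hl0 hD0.le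
  rw [e4] at ht'
  have key : l ^ p * (V (A + t0 • H) + a * e (dd t0)) + (k - m * (l ^ 2 * c)) * (z - t0)
      ≤ l ^ p * (V (A + z • H) + a * e (dd z)) := by
    nlinarith
  have e5 : (k - m * (l ^ 2 * c)) / l ^ p * (z - t0)
      = ((k - m * (l ^ 2 * c)) * (z - t0)) / l ^ p := by ring
  change V (A + t0 • H) + a * e (dd t0) + (k - m * (l ^ 2 * c)) / l ^ p * (z - t0)
    ≤ V (A + z • H) + a * e (dd z)
  rw [e5]
  have e6 : (k - m * (l ^ 2 * c)) * (z - t0) / l ^ p
      ≤ (V (A + z • H) + a * e (dd z)) - (V (A + t0 • H) + a * e (dd t0)) := by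
    rw [div_le_iff₀ hlp]
    nlinarith
  linarith

theorem exists_notP (E : Ext p e) (ε : ℝ) (f : ℝ → ℝ) : ∃ a, ¬ P ε f e a := by
  have hpos : 0 < e 1 + e 3 - 2 * e 2 := by linarith [E.strict]
  refine ⟨(f (ε * 1) + f (ε * 3) - 2 * f (ε * 2)) / (e 1 + e 3 - 2 * e 2) + 1, fun hP => ?_⟩
  have h := mid hP (x := 1) (y := 3) (z := 2) (by norm_num) (by norm_num) (by norm_num)
  set a := (f (ε * 1) + f (ε * 3) - 2 * f (ε * 2)) / (e 1 + e 3 - 2 * e 2) + 1 with ha
  have h2 : (a - 1) * (e 1 + e 3 - 2 * e 2) = f (ε * 1) + f (ε * 3) - 2 * f (ε * 2) := by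
    rw [ha, add_sub_cancel_right]
    field_simp
  nlinarith

theorem exists_notQ (E : Ext p e) {ε : ℝ} (hε : ε * ε = 1) (V : M2 → ℝ) :
    ∃ a, ¬ Q ε V e a := by
  have hpos : 0 < e 1 + e 3 - 2 * e 2 := by linarith [E.strict]
  set A : M2 := !![1, 0; 0, ε] with hA
  set H : M2 := !![2, 0; 0, 0] with hH
  have hdet : ∀ t : ℝ, ε * (A + t • H).det = 1 + 2 * t := by
    intro t
    simp only [hA, hH, Matrix.det_fin_two, Matrix.add_apply, Matrix.smul_apply, smul_eq_mul,
      Matrix.of_apply, Matrix.cons_val', Matrix.cons_val_zero, Matrix.cons_val_one,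
      Matrix.cons_val_fin_one]
    linear_combination (1 + 2 * t) * hε
  set C : ℝ := V (A + (0 : ℝ) • H) + V (A + (1 : ℝ) • H) - 2 * V (A + (1 / 2 : ℝ) • H) with hC
  refine ⟨-(C / (e 1 + e 3 - 2 * e 2) + 1), fun hQ => ?_⟩
  have h := mid (hQ A H (by simp [hH, Matrix.det_fin_two]) (by
    intro t ht
    rw [hdet]
    linarith [ht.1])) (x := 0) (y := 1) (z := 1 / 2) (by simp) (by simp) (by norm_num)
  simp only [hdet] at h
  have e1 : (1 + 2 * 0 : ℝ) = 1 := by norm_num
  have e2 : (1 + 2 * 1 : ℝ) = 3 := by norm_num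
  have e3 : (1 + 2 * (1 / 2) : ℝ) = 2 := by norm_num
  rw [e1, e2, e3] at h
  set b := C / (e 1 + e 3 - 2 * e 2) with hb
  have h2 : b * (e 1 + e 3 - 2 * e 2) = C := by
    rw [hb]
    field_simp
  nlinarith

/-- the common parameter -/
theorem Dat.exists_a (D : Dat p V f) (E : Ext p e) {ε : ℝ} (hε : ε * ε = 1) :
    ∃ a, P ε f e a ∧ Q ε V e a := by
  obtain ⟨a1, h1⟩ := exists_notP E ε f
  obtain ⟨a2, h2⟩ := exists_notQ E hε V
  have n1 : (univ ∩ {a | P ε f e a}).Nonempty :=
    ⟨a2, mem_univ _, (D.dual E hε a2).resolve_right h2⟩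
  have n2 : (univ ∩ {a | Q ε V e a}).Nonempty :=
    ⟨a1, mem_univ _, (D.dual E hε a1).resolve_left h1⟩
  obtain ⟨a, _, ha, ha'⟩ := (isPreconnected_closed_iff.1 (isPreconnected_univ (α := ℝ))) _ _
    (Pclosed ε f e) (Qclosed ε V e) (fun a _ => D.dual E hε a) n1 n2
  exact ⟨a, ha, ha'⟩

end Pool.Agent.X91.VH
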